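import Pool.Agent.Helper62.BW.Stm
import Pool.Agent.Helper18.BM.HW

/-!
# The Hasse-Witt functionals of a general family: degrees, horizontality
-/

set_option autoImplicit false

open Polynomial Matrix Finset

namespace Pool.Agent.Helper18.BW

open Pool.Agent.Helper62.BM Pool.Agent.Helper62.BW Pool.Agent.Helper18.BM

theorem w_HWdeg : W_HWdeg := by
  intro R _ p g n N F hF i l
  have h0 : CDeg F N := hF
  have h1 : CDeg (X ^ (l : ℕ) * F ^ ((p - 1) / 2)) ((p - 1) / 2 * N) := by
    have := ((cdeg_X (R := R) 0).pow (l : ℕ)).mul (h0.pow ((p - 1) / 2))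
    simpa using this
  refine (h1 _).trans ?_
  rw [mul_comm]
  exact Nat.mul_le_mul_left _ ((Nat.div_le_self _ _).trans (Nat.sub_le _ _))

theorem w_HWb : W_HWb := by
  intro R _ p _ _ hp2 g F W P S hR i l
  have hp : p.Prime := Fact.out
  obtain ⟨q', hq'⟩ : ∃ q', p = 2 * (q' + 1) + 1 := by
    have h1 := hp.two_le
    have h2 : p % 2 = 1 := hp.mod_two_eq_one_iff_ne_two.mpr hp2
    exact ⟨p / 2 - 1, by omega⟩
  have hq : (p - 1) / 2 = q' + 1 := by omega
  have h2q : (2 : R[X][X]) * ((q' + 1 : ℕ) : R[X][X]) = -1 := two_q p hq'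
  obtain ⟨hP, hS, hrel⟩ := hR l
  have hdt : dt F = dc F := rfl
  rw [hdt] at hrel
  have hg : 0 < 2 * g := l.pos
  -- the right hand side
  have hdeg : (P l + 2 * derivative (S l)).natDegree < 2 * g := by
    refine lt_of_le_of_lt (natDegree_add_le _ _) (max_lt hP ?_)
    refine lt_of_le_of_lt (natDegree_mul_le.trans (add_le_add (natDegree_ofNat 2).le
      (natDegree_derivative_le (S l)))) ?_
    omega
  have hsum : P l + 2 * derivative (S l) =
      ∑ m : Fin (2 * g), Polynomial.C ((P l + 2 * derivative (S l)).coeff m) * X ^ (m : ℕ) := by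
    rw [← Finset.sum_range fun m =>
      Polynomial.C ((P l + 2 * derivative (S l)).coeff m) * X ^ m]
    conv_lhs => rw [as_sum_range' (P l + 2 * derivative (S l)) (2 * g) hdeg]
    exact Finset.sum_congr rfl fun m _ => by rw [C_mul_X_pow_eq_monomial]
  have hRHS : ∑ m, Yh p g (2 * g) F i m * Mg P S m l =
      -((P l + 2 * derivative (S l)) * F ^ (q' + 1)).coeff (p * ((i : ℕ) + 1) - 1) := by
    rw [hsum, Finset.sum_mul, finsetSum_coeff, ← Finset.sum_neg_distrib]
    refine Finset.sum_congr rfl fun m _ => ?_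
    rw [mul_assoc, coeff_C_mul, Yh, Mg, Matrix.of_apply, Matrix.of_apply, hq]
    ring
  -- the left hand side
  have hder : W * derivative (Yh p g (2 * g) F i l) =
      (Polynomial.C W * dc (X ^ (l : ℕ) * F ^ (q' + 1))).coeff (p * ((i : ℕ) + 1) - 1) := by
    rw [coeff_C_mul, dc_coeff, Yh, Matrix.of_apply, hq]
  have hX : dc ((X : R[X][X]) ^ (l : ℕ)) = 0 := by
    have := dc_map ((X : R[X]) ^ (l : ℕ))
    rwa [Polynomial.map_pow, Polynomial.map_X] at this
  have e4 : Polynomial.C W * dc (X ^ (l : ℕ) * F ^ (q' + 1)) =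
      2 * derivative (S l * F ^ (q' + 1)) - (P l + 2 * derivative (S l)) * F ^ (q' + 1) := by
    rw [dc_mul, hX, dc_pow, derivative_mul, derivative_pow]
    have e5 : F ^ (q' + 1) = F ^ q' * F := pow_succ _ _
    have e6 : (Polynomial.C ((q' + 1 : ℕ) : R[X]) : R[X][X]) = ((q' + 1 : ℕ) : R[X][X]) :=
      map_natCast _ _
    rw [e6, Nat.add_sub_cancel, e5]
    linear_combination (-((q' + 1 : ℕ) : R[X][X]) * F ^ q') * hrel +
      (F ^ q' * F * P l) * h2q
  rw [hder, hRHS, e4, coeff_sub]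
  have h2c : ∀ G : R[X][X], ((2 : R[X][X]) * G).coeff (p * ((i : ℕ) + 1) - 1) =
      2 * G.coeff (p * ((i : ℕ) + 1) - 1) := by
    intro G
    rw [show (2 : R[X][X]) = Polynomial.C 2 from (map_ofNat Polynomial.C 2).symm, coeff_C_mul]
  rw [h2c, coeff_der, mul_zero, zero_sub]

end Pool.Agent.Helper18.BW
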